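import Mathlib

set_option autoImplicit false
open Set

namespace Pool.Agent.MP_2d2dfa_co

/-- The twelve centres of the rounding balls of the first body. -/
def vx : Fin 12 → Fin 3 → ℤ :=
  ![![2, 12, 13],
    ![1, 8, 12],
    ![0, 10, 14],
    ![10, 17, 6],
    ![6, 16, 5],
    ![8, 18, 4],
    ![-2, 13, 12],
    ![-1, 12, 8],
    ![0, 14, 10],
    ![-10, 6, 17],
    ![-6, 5, 16],
    ![-8, 4, 18]]

/-- Three times the outward unit normals at the contact triangles. -/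
def wx : Fin 12 → Fin 3 → ℤ :=
  ![![2, -1, 2],
    ![2, -1, 2],
    ![2, -1, 2],
    ![1, -2, -2],
    ![1, -2, -2],
    ![1, -2, -2],
    ![-2, 2, -1],
    ![-2, 2, -1],
    ![-2, 2, -1],
    ![-1, -2, -2],
    ![-1, -2, -2],
    ![-1, -2, -2]]

/-- Twelve rotations of the cube. -/
def mx : Fin 12 → Fin 3 → Fin 3 → ℤ :=
  ![![![1, 0, 0], ![0, 1, 0], ![0, 0, 1]],
    ![![0, 0, 1], ![1, 0, 0], ![0, 1, 0]],
    ![![0, 1, 0], ![0, 0, 1], ![1, 0, 0]],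
    ![![0, 0, -1], ![0, 1, 0], ![1, 0, 0]],
    ![![0, -1, 0], ![1, 0, 0], ![0, 0, 1]],
    ![![1, 0, 0], ![0, 0, -1], ![0, 1, 0]],
    ![![0, 0, 1], ![0, -1, 0], ![1, 0, 0]],
    ![![0, 1, 0], ![1, 0, 0], ![0, 0, -1]],
    ![![-1, 0, 0], ![0, 1, 0], ![0, 0, -1]],
    ![![0, 0, -1], ![1, 0, 0], ![0, -1, 0]],
    ![![0, -1, 0], ![0, 0, -1], ![1, 0, 0]],
    ![![1, 0, 0], ![0, -1, 0], ![0, 0, -1]]]

/-- Separating directions. -/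
def nx : Fin 12 → Fin 12 → Fin 3 → ℤ :=
  ![![![0, 0, 0], ![2, -1, 2], ![1, -2, -2], ![-2, 2, -1], ![-1, -2, -2], ![0, -1, 0], ![0, -1, 0], ![0, 0, -1], ![0, 0, -1], ![0, 0, -1], ![0, -1, 0], ![0, -1, 0]],
    ![![-2, 1, -2], ![0, 0, 0], ![2, 2, -1], ![-1, 0, 0], ![-1, 0, 0], ![-1, -2, 2], ![-2, -1, -2], ![0, 0, -1], ![0, 0, -1], ![-1, 0, 0], ![-1, 0, 0], ![0, 0, -1]],
    ![![-1, 2, 2], ![-2, -2, 1], ![0, 0, 0], ![-1, 0, 0], ![-1, 0, 0], ![0, -1, 0], ![0, -1, 0], ![2, -1, -2], ![-2, -2, -1], ![-1, 0, 0], ![-1, 0, 0], ![0, -1, 0]],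
    ![![2, -2, 1], ![1, 0, 0], ![1, 0, 0], ![0, 0, 0], ![-2, -1, 2], ![0, -1, 0], ![0, -1, 0], ![1, 0, 0], ![1, 2, -2], ![2, -2, -1], ![0, -1, 0], ![0, -1, 0]],
    ![![1, 2, 2], ![1, 0, 0], ![1, 0, 0], ![2, 1, -2], ![0, 0, 0], ![2, -1, -2], ![1, 0, 0], ![0, 0, -1], ![0, 0, -1], ![0, 0, -1], ![-2, -2, -1], ![0, 0, -1]],
    ![![0, 1, 0], ![1, 2, -2], ![0, 1, 0], ![0, 1, 0], ![-2, 1, 2], ![0, 0, 0], ![2, -2, -1], ![0, 0, -1], ![0, 0, -1], ![0, 0, -1], ![-1, 2, -2], ![0, 0, -1]],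
    ![![0, 1, 0], ![2, 1, 2], ![0, 1, 0], ![-1, 0, 0], ![-1, 0, 0], ![-2, 2, 1], ![0, 0, 0], ![-2, 2, -1], ![0, 1, 0], ![-1, 0, 0], ![-1, 0, 0], ![-1, -2, -2]],
    ![![0, 0, 1], ![0, 0, 1], ![-2, 1, 2], ![-1, 0, 0], ![-1, 0, 0], ![0, 0, 1], ![2, -2, 1], ![0, 0, 0], ![-1, 2, -2], ![-1, 0, 0], ![-1, 0, 0], ![-2, -1, 2]],
    ![![0, 0, 1], ![0, 0, 1], ![2, 2, 1], ![-1, -2, 2], ![0, 0, 1], ![0, -1, 0], ![0, -1, 0], ![1, -2, 2], ![0, 0, 0], ![-2, -1, -2], ![0, -1, 0], ![0, -1, 0]],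
    ![![0, 0, 1], ![0, 0, 1], ![1, 0, 0], ![-2, 2, 1], ![0, 0, 1], ![0, 0, 1], ![1, 0, 0], ![1, 0, 0], ![2, 1, 2], ![0, 0, 0], ![2, -1, 2], ![1, -2, -2]],
    ![![0, 1, 0], ![1, 0, 0], ![0, 1, 0], ![0, 1, 0], ![2, 2, 1], ![1, -2, 2], ![1, 0, 0], ![1, 0, 0], ![0, 1, 0], ![-2, 1, -2], ![0, 0, 0], ![2, 2, -1]],
    ![![0, 0, 1], ![0, 0, 1], ![0, 1, 0], ![0, 1, 0], ![0, 0, 1], ![0, 0, 1], ![1, 2, 2], ![2, 1, -2], ![0, 1, 0], ![-1, 2, 2], ![-2, -2, 1], ![0, 0, 0]]]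


def app (m : Fin 3 → Fin 3 → ℤ) (v : Fin 3 → ℤ) : Fin 3 → ℤ := fun a => ∑ b, m a b * v b

def idot (u v : Fin 3 → ℤ) : ℤ := ∑ a, u a * v a

theorem sep_check : ∀ i j : Fin 12, i ≠ j → nx i j ≠ 0 ∧ ∀ k l : Fin 12,
    0 ≤ idot (nx i j) (app (mx j) (vx l)) - idot (nx i j) (app (mx i) (vx k)) ∧
    36 * idot (nx i j) (nx i j) ≤
      (idot (nx i j) (app (mx j) (vx l)) - idot (nx i j) (app (mx i) (vx k))) ^ 2 := by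
  decide +kernel

theorem nbr_check : ∀ i m : Fin 12, ∃ j k : Fin 12, j ≠ i ∧
    app (mx i) (fun a => vx m a + 2 * wx m a) = app (mx j) (vx k) := by
  decide +kernel

theorem orth_check : ∀ i : Fin 12, ∀ a b : Fin 3,
    ∑ c, mx i c a * mx i c b = if a = b then 1 else 0 := by
  decide +kernel

end Pool.Agent.MP_2d2dfa_co
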