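import Pool.Agent.MP_2d2dfa_co.Smooth
import Pool.Agent.MP_2d2dfa_co.Data

set_option autoImplicit false
open Set

namespace Pool.Agent.MP_2d2dfa_co

def toE (v : Fin 3 → ℤ) : E := WithLp.toLp 2 (fun a => (v a : ℝ))

@[simp] theorem toE_apply (v : Fin 3 → ℤ) (a : Fin 3) : toE v a = (v a : ℝ) := rfl

theorem inner_toE (u v : Fin 3 → ℤ) : inner ℝ (toE u) (toE v) = ((idot u v : ℤ) : ℝ) := by
  simp [PiLp.inner_apply, toE, idot]
  apply Finset.sum_congr rfl
  intro a _
  ring

def core (i : Fin 12) : Set E := convexHull ℝ (Set.range (fun j => toE (app (mx i) (vx j))))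

def body (i : Fin 12) : Set E := Metric.cthickening 3 (core i)

theorem core_compact (i : Fin 12) : IsCompact (core i) :=
  (Set.finite_range _).isCompact_convexHull ℝ

theorem body_compact (i : Fin 12) : IsCompact (body i) := (core_compact i).cthickening

theorem body_convex (i : Fin 12) : Convex ℝ (body i) := (convex_convexHull ℝ _).cthickening 3

theorem vert_mem (i j : Fin 12) : toE (app (mx i) (vx j)) ∈ core i :=
  subset_convexHull ℝ _ ⟨j, rfl⟩

theorem ball_subset (i j : Fin 12) : Metric.ball (toE (app (mx i) (vx j))) 3 ⊆ body i := by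
  intro y hy
  unfold body
  rw [(core_compact i).cthickening_eq_biUnion_closedBall (by norm_num)]
  simp only [mem_iUnion, exists_prop]
  exact ⟨_, vert_mem i j, Metric.ball_subset_closedBall hy⟩

theorem body_interior (i : Fin 12) : (interior (body i)).Nonempty :=
  ⟨toE (app (mx i) (vx 0)), interior_mono (ball_subset i 0) (by
    rw [Metric.isOpen_ball.interior_eq]; exact Metric.mem_ball_self (by norm_num))⟩

theorem toE_ne {v : Fin 3 → ℤ} (h : v ≠ 0) : toE v ≠ 0 := by
  intro h0
  apply h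
  funext a
  have : toE v a = 0 := by rw [h0]; rfl
  simpa using this

theorem core_sep {i j : Fin 12} (hij : i ≠ j) :
    ∀ p ∈ core i, ∀ q ∈ core j,
      inner ℝ (toE (nx i j)) p + 2 * 3 * ‖toE (nx i j)‖ ≤ inner ℝ (toE (nx i j)) q := by
  obtain ⟨-, hc⟩ := sep_check i j hij
  set n := toE (nx i j) with hn
  have hvert : ∀ k l : Fin 12, inner ℝ n (toE (app (mx i) (vx k))) + 2 * 3 * ‖n‖ ≤
      inner ℝ n (toE (app (mx j) (vx l))) := by
    intro k l
    obtain ⟨h1, h2⟩ := hc k l
    rw [hn, inner_toE, inner_toE]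
    have h1' : (0 : ℝ) ≤ (idot (nx i j) (app (mx j) (vx l)) : ℝ) -
        (idot (nx i j) (app (mx i) (vx k)) : ℝ) := by exact_mod_cast h1
    have h2' : 36 * (idot (nx i j) (nx i j) : ℝ) ≤ ((idot (nx i j) (app (mx j) (vx l)) : ℝ) -
        (idot (nx i j) (app (mx i) (vx k)) : ℝ)) ^ 2 := by exact_mod_cast h2
    rw [← inner_toE (nx i j) (nx i j), real_inner_self_eq_norm_sq] at h2'
    have h3 : (6 * ‖toE (nx i j)‖) ^ 2 ≤ ((idot (nx i j) (app (mx j) (vx l)) : ℝ) -
        (idot (nx i j) (app (mx i) (vx k)) : ℝ)) ^ 2 := by nlinarith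
    have h4 := abs_le_of_sq_le_sq h3 h1'
    have h5 := (abs_le.mp (abs_le_of_sq_le_sq h3 h1')).2
    linarith
  intro p hp q hq
  have step1 : ∀ l : Fin 12, inner ℝ n p + 2 * 3 * ‖n‖ ≤ inner ℝ n (toE (app (mx j) (vx l))) := by
    intro l
    have hsub : core i ⊆ {x : E | inner ℝ n x ≤ inner ℝ n (toE (app (mx j) (vx l))) - 2 * 3 * ‖n‖} := by
      apply convexHull_min
      · rintro _ ⟨k, rfl⟩
        have := hvert k l
        simp only [mem_ofPred_eq]
        linarith
      · exact convex_halfSpace_le (innerSL ℝ n).isLinear _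
    have := hsub hp
    simp only [mem_ofPred_eq] at this
    linarith
  have hsub : core j ⊆ {x : E | inner ℝ n p + 2 * 3 * ‖n‖ ≤ inner ℝ n x} := by
    apply convexHull_min
    · rintro _ ⟨l, rfl⟩
      exact step1 l
    · exact convex_halfSpace_ge (innerSL ℝ n).isLinear _
  exact hsub hq

theorem body_disjoint {i j : Fin 12} (hij : i ≠ j) :
    Disjoint (interior (body i)) (interior (body j)) :=
  disjoint_cthickening (core_compact i) (core_compact j) (by norm_num)
    (toE_ne (sep_check i j hij).1) (core_sep hij)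

theorem body_smooth (i : Fin 12) : ∀ x ∈ frontier (body i), ∀ u v : E, u ≠ 0 → v ≠ 0 →
    (∀ y ∈ body i, inner ℝ u (y - x) ≤ 0) → (∀ y ∈ body i, inner ℝ v (y - x) ≤ 0) →
    ∃ c : ℝ, 0 < c ∧ v = c • u := by
  intro x hx u v hu hv h1 h2
  exact smooth_cthickening (core_compact i) (by norm_num) hx hu hv h1 h2

end Pool.Agent.MP_2d2dfa_co
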