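import Pool.Agent.MP_2d2dfa_co.Path

set_option autoImplicit false
open Set

namespace Pool.Agent.MP_2d2dfa_co

theorem orth_check' : ∀ i : Fin 12, ∀ a b : Fin 3,
    ∑ c, mx i a c * mx i b c = if a = b then 1 else 0 := by
  decide +kernel

noncomputable def lmap (M : Fin 3 → Fin 3 → ℝ) (x : E) : E :=
  WithLp.toLp 2 (fun a => ∑ b, M a b * x b)

theorem lmap_apply (M : Fin 3 → Fin 3 → ℝ) (x : E) (a : Fin 3) :
    lmap M x a = ∑ b, M a b * x b := rfl

theorem lmap_isometry (M : Fin 3 → Fin 3 → ℝ)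
    (h : ∀ a b, ∑ c, M c a * M c b = if a = b then (1 : ℝ) else 0) : Isometry (lmap M) := by
  apply Isometry.of_dist_eq
  intro x y
  rw [EuclideanSpace.dist_eq, EuclideanSpace.dist_eq]
  congr 1
  simp only [Real.dist_eq, sq_abs, lmap_apply, Fin.sum_univ_three]
  have h00 := h 0 0
  have h01 := h 0 1
  have h02 := h 0 2
  have h11 := h 1 1
  have h12 := h 1 2
  have h22 := h 2 2
  simp [Fin.sum_univ_three] at h00 h01 h02 h11 h12 h22
  linear_combination (x 0 - y 0) ^ 2 * h00 + 2 * (x 0 - y 0) * (x 1 - y 1) * h01 +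
    2 * (x 0 - y 0) * (x 2 - y 2) * h02 + (x 1 - y 1) ^ 2 * h11 +
    2 * (x 1 - y 1) * (x 2 - y 2) * h12 + (x 2 - y 2) ^ 2 * h22

theorem lmap_inv (M N : Fin 3 → Fin 3 → ℝ)
    (h : ∀ a b, ∑ c, M a c * N c b = if a = b then (1 : ℝ) else 0) (x : E) :
    lmap M (lmap N x) = x := by
  ext a
  rw [lmap_apply]
  simp only [lmap_apply, Fin.sum_univ_three]
  have h0 := h a 0
  have h1 := h a 1
  have h2 := h a 2
  simp only [Fin.sum_univ_three] at h0 h1 h2
  have : x a = (if a = 0 then (1 : ℝ) else 0) * x 0 + (if a = 1 then (1 : ℝ) else 0) * x 1 +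
      (if a = 2 then (1 : ℝ) else 0) * x 2 := by
    fin_cases a <;> simp
  rw [this, ← h0, ← h1, ← h2]
  ring

noncomputable def Lf (i : Fin 12) : E → E := lmap (fun a b => (mx i a b : ℝ))

noncomputable def Lb (i : Fin 12) : E → E := lmap (fun a b => (mx i b a : ℝ))

theorem Lf_isometry (i : Fin 12) : Isometry (Lf i) := by
  apply lmap_isometry
  intro a b
  have := orth_check i a b
  have h2 : ((∑ c, mx i c a * mx i c b : ℤ) : ℝ) = ((if a = b then (1 : ℤ) else 0 : ℤ) : ℝ) := by
    rw [this]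
  push_cast at h2
  exact h2

theorem Lb_isometry (i : Fin 12) : Isometry (Lb i) := by
  apply lmap_isometry
  intro a b
  have := orth_check' i a b
  have h2 : ((∑ c, mx i a c * mx i b c : ℤ) : ℝ) = ((if a = b then (1 : ℤ) else 0 : ℤ) : ℝ) := by
    rw [this]
  push_cast at h2
  exact h2

theorem Lb_Lf (i : Fin 12) (x : E) : Lb i (Lf i x) = x := by
  apply lmap_inv
  intro a b
  have := orth_check i a b
  have h2 : ((∑ c, mx i c a * mx i c b : ℤ) : ℝ) = ((if a = b then (1 : ℤ) else 0 : ℤ) : ℝ) := by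
    rw [this]
  push_cast at h2
  exact h2

theorem Lf_Lb (i : Fin 12) (x : E) : Lf i (Lb i x) = x := by
  apply lmap_inv
  intro a b
  have := orth_check' i a b
  have h2 : ((∑ c, mx i a c * mx i b c : ℤ) : ℝ) = ((if a = b then (1 : ℤ) else 0 : ℤ) : ℝ) := by
    rw [this]
  push_cast at h2
  exact h2

theorem Lf_toE (i : Fin 12) (v : Fin 3 → ℤ) : Lf i (toE v) = toE (app (mx i) v) := by
  ext a
  simp [Lf, lmap_apply, app]

/-- Two overlap-free balls have far centres. -/
theorem far_of_disjoint {A B : Set E} {g : E → E} (hg : Isometry g) {p q : E}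
    (hp : Metric.ball p 3 ⊆ A) (hq : Metric.ball q 3 ⊆ B)
    (hd : Disjoint (interior (g '' A)) (interior B)) : 6 ≤ dist (g p) q := by
  by_contra hlt
  push Not at hlt
  obtain ⟨A', hA'⟩ := iso_linear hg
  have hsurj : Function.Surjective g := by
    intro y
    obtain ⟨x, hx⟩ := (A'.toLinearIsometryEquiv rfl).surjective (y - g 0)
    refine ⟨x, ?_⟩
    rw [hA' x]
    have : A' x = y - g 0 := by simpa using hx
    rw [this]
    abel
  have himg : Metric.ball (g p) 3 ⊆ g '' A := by
    intro y hy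
    obtain ⟨x, rfl⟩ := hsurj y
    refine ⟨x, hp ?_, rfl⟩
    rw [Metric.mem_ball, hg.dist_eq] at hy
    exact hy
  have h1 : midpoint ℝ (g p) q ∈ interior (g '' A) := by
    apply interior_mono himg
    rw [Metric.isOpen_ball.interior_eq, Metric.mem_ball, dist_midpoint_left]
    simp only [Real.norm_ofNat]
    linarith
  have h2 : midpoint ℝ (g p) q ∈ interior B := by
    apply interior_mono hq
    rw [Metric.isOpen_ball.interior_eq, Metric.mem_ball, dist_midpoint_right]
    simp only [Real.norm_ofNat]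
    linarith
  exact (Set.disjoint_left.mp hd) h1 h2

theorem body_immobile (i : Fin 12) (γ : ℝ → E → E)
    (hcont : Continuous (fun p : ℝ × E => γ p.1 p.2))
    (h0 : ∀ x, γ 0 x = x)
    (hiso : ∀ t ∈ Icc (0 : ℝ) 1, Isometry (γ t))
    (hdis : ∀ t ∈ Icc (0 : ℝ) 1, ∀ j, j ≠ i →
      Disjoint (interior (γ t '' body i)) (interior (body j))) (x : E) : γ 1 x = x := by
  set G : ℝ → E → E := fun t x => Lb i (γ t (Lf i x)) with hG
  have hGiso : ∀ t ∈ Icc (0 : ℝ) 1, Isometry (G t) := fun t ht =>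
    (Lb_isometry i).comp ((hiso t ht).comp (Lf_isometry i))
  have hcontact : ∀ t ∈ Icc (0 : ℝ) 1, ∀ k : Fin 12,
      6 ≤ dist (G t (toE (vx k))) (toE (fun a => vx k a + 2 * wx k a)) := by
    intro t ht k
    obtain ⟨j, l, hji, hjl⟩ := nbr_check i k
    have h1 : dist (G t (toE (vx k))) (toE (fun a => vx k a + 2 * wx k a)) =
        dist (γ t (toE (app (mx i) (vx k)))) (toE (app (mx j) (vx l))) := by
      rw [← hjl, ← Lf_toE, ← Lf_toE]
      conv_lhs => rw [← Lb_Lf i (toE (fun a => vx k a + 2 * wx k a))]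
      exact (Lb_isometry i).dist_eq _ _
    rw [h1]
    exact far_of_disjoint (hiso t ht) (ball_subset i k) (ball_subset j l) (hdis t ht j hji)
  have hineq : ∀ t ∈ Icc (0 : ℝ) 1, fv (G t) ≤ 30000000 * fv (G t) ^ 2 := fun t ht =>
    local_rigid (hGiso t ht) (hcontact t ht)
  have hGc : ∀ (x : E) (b : Fin 3), Continuous (fun t => G t x b) := by
    intro x b
    have h1 : Continuous (fun t : ℝ => γ t (Lf i x)) :=
      hcont.comp (continuous_id.prodMk continuous_const)
    have h2 : Continuous (fun t : ℝ => Lb i (γ t (Lf i x))) := (Lb_isometry i).continuous.comp h1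
    exact (EuclideanSpace.proj (𝕜 := ℝ) b).continuous.comp h2
  have hfc : Continuous (fun t => fv (G t)) := by
    unfold fv av mv
    apply Continuous.add
    · exact continuous_finsetSum _ (fun b _ => (hGc 0 b).abs)
    · exact continuous_finsetSum _ (fun b _ => continuous_finsetSum _ (fun c _ =>
        (((hGc _ b).sub (hGc 0 b)).sub continuous_const).abs))
  have hf0 : fv (G 0) = 0 := by
    have : G 0 = id := by
      funext x
      simp only [hG, h0, Lb_Lf, id]
    rw [this]
    unfold fv av mv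
    simp [PiLp.single_apply]
  have hf1 : fv (G 1) = 0 := by
    by_contra hne
    have hpos : 0 < fv (G 1) := lt_of_le_of_ne (fv_nonneg _) (Ne.symm hne)
    set s : ℝ := min (fv (G 1)) (1 / 60000000) with hs
    have hspos : 0 < s := lt_min hpos (by norm_num)
    have hivt := intermediate_value_Icc (a := (0 : ℝ)) (b := 1) (by norm_num) hfc.continuousOn
    obtain ⟨t, ht, hts⟩ := hivt (show s ∈ Icc (fv (G 0)) (fv (G 1)) from
      ⟨by rw [hf0]; exact hspos.le, min_le_left _ _⟩)
    have h1 := hineq t ht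
    simp only at hts
    rw [hts] at h1
    have h2 : s ≤ 1 / 60000000 := min_le_right _ _
    nlinarith
  have hid := fv_zero (hGiso 1 (by norm_num)) hf1
  have h1 := hid (Lb i x)
  simp only [hG, Lf_Lb] at h1
  exact (Lb_isometry i).injective h1

theorem main : ∃ n : ℕ, 0 < n ∧ ∃ K : Fin n → Set (EuclideanSpace ℝ (Fin 3)),
      (∀ i, IsCompact (K i) ∧ Convex ℝ (K i) ∧ (interior (K i)).Nonempty ∧
        (∀ x ∈ frontier (K i), ∀ u v : EuclideanSpace ℝ (Fin 3),
          u ≠ 0 → v ≠ 0 →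
          (∀ y ∈ K i, inner ℝ u (y - x) ≤ 0) →
          (∀ y ∈ K i, inner ℝ v (y - x) ≤ 0) →
          ∃ c : ℝ, 0 < c ∧ v = c • u)) ∧
      (∀ i j, i ≠ j → Disjoint (interior (K i)) (interior (K j))) ∧
      (∀ i, ∀ γ : ℝ → EuclideanSpace ℝ (Fin 3) → EuclideanSpace ℝ (Fin 3),
        Continuous (fun p : ℝ × EuclideanSpace ℝ (Fin 3) => γ p.1 p.2) →
        (∀ x, γ 0 x = x) →
        (∀ t ∈ Icc (0 : ℝ) 1, Isometry (γ t)) →
        (∀ t ∈ Icc (0 : ℝ) 1, ∀ j, j ≠ i →
          Disjoint (interior (γ t '' K i)) (interior (K j))) →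
        γ 1 '' K i = K i) := by
  refine ⟨12, by norm_num, body, fun i => ⟨body_compact i, body_convex i, body_interior i,
    body_smooth i⟩, fun i j hij => body_disjoint hij, ?_⟩
  intro i γ hcont h0 hiso hdis
  have h := body_immobile i γ hcont h0 hiso hdis
  have : γ 1 = id := funext h
  rw [this, image_id]

end Pool.Agent.MP_2d2dfa_co
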