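import Pool.Agent.MP_2d2dfa_co.Rigid

set_option autoImplicit false
open Set

namespace Pool.Agent.MP_2d2dfa_co

noncomputable def av (g : E → E) (b : Fin 3) : ℝ := g 0 b

noncomputable def mv (g : E → E) (b c : Fin 3) : ℝ :=
  g (EuclideanSpace.single c 1) b - g 0 b - (if b = c then 1 else 0)

theorem iso_linear {g : E → E} (hg : Isometry g) : ∃ A : E →ₗᵢ[ℝ] E, ∀ x, g x = A x + g 0 := by
  refine ⟨hg.affineIsometryOfStrictConvexSpace.linearIsometry, fun x => ?_⟩
  have := hg.affineIsometryOfStrictConvexSpace.map_vadd 0 x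
  simpa using this

theorem vec_expand (x : E) : x = ∑ c, x c • (EuclideanSpace.single c (1 : ℝ) : E) := by
  ext b
  simp [Finset.sum_apply, Pi.single_apply]

theorem iso_apply {g : E → E} (hg : Isometry g) (x : E) (b : Fin 3) :
    g x b = av g b + x b + ∑ c, mv g b c * x c := by
  obtain ⟨A, hA⟩ := iso_linear hg
  have h1 : ∀ c, A (EuclideanSpace.single c 1) b = mv g b c + (if b = c then 1 else 0) := by
    intro c
    unfold mv
    rw [hA (EuclideanSpace.single c 1)]
    simp
  have h2 : A x = ∑ c, x c • A (EuclideanSpace.single c 1) := by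
    conv_lhs => rw [vec_expand x]
    rw [map_sum]
    simp only [map_smul]
  rw [hA x, h2]
  have h3 : (∑ c, x c • A (EuclideanSpace.single c 1)) b = ∑ c, x c * (mv g b c + (if b = c then 1 else 0)) := by
    simp only [← h1]
    simp [Finset.sum_apply]
  simp only [PiLp.add_apply]
  rw [h3]
  unfold av
  simp only [mul_add, Finset.sum_add_distrib]
  simp
  have : ∑ c, x.ofLp c * mv g b c = ∑ c, mv g b c * x.ofLp c :=
    Finset.sum_congr rfl (fun c _ => mul_comm _ _)
  rw [this]
  ring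

theorem iso_orth {g : E → E} (hg : Isometry g) (c d : Fin 3) :
    mv g c d + mv g d c + (mv g 0 c * mv g 0 d + mv g 1 c * mv g 1 d + mv g 2 c * mv g 2 d) = 0 := by
  obtain ⟨A, hA⟩ := iso_linear hg
  have h1 : ∀ b c, A (EuclideanSpace.single c 1) b = mv g b c + (if b = c then 1 else 0) := by
    intro b c
    unfold mv
    rw [hA (EuclideanSpace.single c 1)]
    simp
  have h2 := A.inner_map_map (EuclideanSpace.single c 1) (EuclideanSpace.single d 1)
  rw [PiLp.inner_apply, PiLp.inner_apply] at h2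
  simp only [h1, Fin.sum_univ_three] at h2
  fin_cases c <;> fin_cases d <;> simp at h2 ⊢ <;> linarith

noncomputable def fv (g : E → E) : ℝ := (∑ b, |av g b|) + ∑ b, ∑ c, |mv g b c|

theorem fv_nonneg (g : E → E) : 0 ≤ fv g := by
  unfold fv
  positivity

theorem fv_zero {g : E → E} (hg : Isometry g) (h : fv g = 0) (x : E) : g x = x := by
  unfold fv at h
  have h1 : (∑ b, |av g b|) = 0 := by
    have : 0 ≤ ∑ b, ∑ c, |mv g b c| := by positivity
    have : 0 ≤ ∑ b, |av g b| := by positivity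
    linarith
  have h2 : (∑ b, ∑ c, |mv g b c|) = 0 := by linarith
  have h3 : ∀ b, av g b = 0 := by
    intro b
    have := (Finset.sum_eq_zero_iff_of_nonneg (fun b _ => abs_nonneg (av g b))).mp h1 b (Finset.mem_univ _)
    exact abs_eq_zero.mp this
  have h4 : ∀ b c, mv g b c = 0 := by
    intro b c
    have := (Finset.sum_eq_zero_iff_of_nonneg
      (fun b _ => Finset.sum_nonneg (fun c _ => abs_nonneg (mv g b c)))).mp h2 b (Finset.mem_univ _)
    have := (Finset.sum_eq_zero_iff_of_nonneg (fun c _ => abs_nonneg (mv g b c))).mp this c (Finset.mem_univ _)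
    exact abs_eq_zero.mp this
  ext b
  rw [iso_apply hg x b, h3]
  simp [h4]

theorem dist_contact {g : E → E} (hg : Isometry g) (k : Fin 12)
    (h : 6 ≤ dist (g (toE (vx k))) (toE (fun a => vx k a + 2 * wx k a))) :
    36 ≤ ∑ b, (av g b + (∑ c, mv g b c * (vx k c : ℝ)) - 2 * (wx k b : ℝ)) ^ 2 := by
  have h1 : (6 : ℝ) ^ 2 ≤ dist (g (toE (vx k))) (toE (fun a => vx k a + 2 * wx k a)) ^ 2 :=
    pow_le_pow_left₀ (by norm_num) h 2
  rw [EuclideanSpace.dist_eq, Real.sq_sqrt (by positivity)] at h1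
  have h2 : ∀ b, dist ((g (toE (vx k))) b) ((toE (fun a => vx k a + 2 * wx k a)) b) ^ 2 =
      (av g b + (∑ c, mv g b c * (vx k c : ℝ)) - 2 * (wx k b : ℝ)) ^ 2 := by
    intro b
    rw [Real.dist_eq, sq_abs, iso_apply hg]
    simp only [toE_apply]
    push_cast
    ring
  rw [Finset.sum_congr rfl (fun b _ => h2 b)] at h1
  linarith

theorem abs_av_le (g : E → E) (b : Fin 3) : |av g b| ≤ fv g := by
  unfold fv
  have h1 : |av g b| ≤ ∑ b, |av g b| :=
    Finset.single_le_sum (f := fun b => |av g b|) (fun b _ => abs_nonneg _) (Finset.mem_univ b)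
  have : 0 ≤ ∑ b, ∑ c, |mv g b c| := by positivity
  linarith

theorem abs_mv_le (g : E → E) (b c : Fin 3) : |mv g b c| ≤ fv g := by
  unfold fv
  have h1 : |mv g b c| ≤ ∑ c, |mv g b c| :=
    Finset.single_le_sum (f := fun c => |mv g b c|) (fun b _ => abs_nonneg _) (Finset.mem_univ c)
  have h2 : (∑ c, |mv g b c|) ≤ ∑ b, ∑ c, |mv g b c| :=
    Finset.single_le_sum (f := fun b => ∑ c, |mv g b c|)
      (fun b _ => Finset.sum_nonneg (fun c _ => abs_nonneg _)) (Finset.mem_univ b)
  have : 0 ≤ ∑ b, |av g b| := by positivity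
  linarith

theorem local_rigid {g : E → E} (hg : Isometry g)
    (h : ∀ k : Fin 12, 6 ≤ dist (g (toE (vx k))) (toE (fun a => vx k a + 2 * wx k a))) :
    fv g ≤ 30000000 * fv g ^ 2 := by
  have hc := fun k => dist_contact hg k (h k)
  have c0 := hc 0
  have c1 := hc 1
  have c2 := hc 2
  have c3 := hc 3
  have c4 := hc 4
  have c5 := hc 5
  have c6 := hc 6
  have c7 := hc 7
  have c8 := hc 8
  have c9 := hc 9
  have c10 := hc 10
  have c11 := hc 11
  simp [Fin.sum_univ_three, vx, wx] at c0 c1 c2 c3 c4 c5 c6 c7 c8 c9 c10 c11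
  have key := numeric (av g 0) (av g 1) (av g 2) (mv g 0 0) (mv g 0 1) (mv g 0 2)
    (mv g 1 0) (mv g 1 1) (mv g 1 2) (mv g 2 0) (mv g 2 1) (mv g 2 2) (fv g) (fv_nonneg g)
    (abs_av_le g 0) (abs_av_le g 1) (abs_av_le g 2) (abs_mv_le g 0 0) (abs_mv_le g 0 1) (abs_mv_le g 0 2)
    (abs_mv_le g 1 0) (abs_mv_le g 1 1) (abs_mv_le g 1 2) (abs_mv_le g 2 0) (abs_mv_le g 2 1) (abs_mv_le g 2 2)
    (iso_orth hg 0 0) (iso_orth hg 0 1) (iso_orth hg 0 2) (iso_orth hg 1 1) (iso_orth hg 1 2) (iso_orth hg 2 2)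
    (by convert c0 using 1; ring) (by convert c1 using 1; ring) (by convert c2 using 1; ring)
    (by convert c3 using 1; ring) (by convert c4 using 1; ring) (by convert c5 using 1; ring)
    (by convert c6 using 1; ring) (by convert c7 using 1; ring) (by convert c8 using 1; ring)
    (by convert c9 using 1; ring) (by convert c10 using 1; ring) (by convert c11 using 1; ring)
  obtain ⟨g0, g1, g2, g3, g4, g5, g6, g7, g8, g9, g10, g11⟩ := key
  have : fv g = |av g 0| + |av g 1| + |av g 2| + (|mv g 0 0| + |mv g 0 1| + |mv g 0 2| +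
    (|mv g 1 0| + |mv g 1 1| + |mv g 1 2|) + (|mv g 2 0| + |mv g 2 1| + |mv g 2 2|)) := by
    unfold fv
    simp only [Fin.sum_univ_three]
  linarith

end Pool.Agent.MP_2d2dfa_co
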