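import Pool.Agent.MP_2d2dfa_co.Bodies

set_option autoImplicit false
open Set

namespace Pool.Agent.MP_2d2dfa_co

/-- The linear programming certificate behind first-order immobility. -/
theorem lin (a0 a1 a2 m00 m01 m02 m10 m11 m12 m20 m21 m22 η : ℝ)
    (h0 : (2)*(a0 + m00*(2) + m01*(12) + m02*(13)) + (-1)*(a1 + m10*(2) + m11*(12) + m12*(13)) + (2)*(a2 + m20*(2) + m21*(12) + m22*(13)) ≤ η)
    (h1 : (2)*(a0 + m00*(1) + m01*(8) + m02*(12)) + (-1)*(a1 + m10*(1) + m11*(8) + m12*(12)) + (2)*(a2 + m20*(1) + m21*(8) + m22*(12)) ≤ η)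
    (h2 : (2)*(a0 + m00*(0) + m01*(10) + m02*(14)) + (-1)*(a1 + m10*(0) + m11*(10) + m12*(14)) + (2)*(a2 + m20*(0) + m21*(10) + m22*(14)) ≤ η)
    (h3 : (1)*(a0 + m00*(10) + m01*(17) + m02*(6)) + (-2)*(a1 + m10*(10) + m11*(17) + m12*(6)) + (-2)*(a2 + m20*(10) + m21*(17) + m22*(6)) ≤ η)
    (h4 : (1)*(a0 + m00*(6) + m01*(16) + m02*(5)) + (-2)*(a1 + m10*(6) + m11*(16) + m12*(5)) + (-2)*(a2 + m20*(6) + m21*(16) + m22*(5)) ≤ η)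
    (h5 : (1)*(a0 + m00*(8) + m01*(18) + m02*(4)) + (-2)*(a1 + m10*(8) + m11*(18) + m12*(4)) + (-2)*(a2 + m20*(8) + m21*(18) + m22*(4)) ≤ η)
    (h6 : (-2)*(a0 + m00*(-2) + m01*(13) + m02*(12)) + (2)*(a1 + m10*(-2) + m11*(13) + m12*(12)) + (-1)*(a2 + m20*(-2) + m21*(13) + m22*(12)) ≤ η)
    (h7 : (-2)*(a0 + m00*(-1) + m01*(12) + m02*(8)) + (2)*(a1 + m10*(-1) + m11*(12) + m12*(8)) + (-1)*(a2 + m20*(-1) + m21*(12) + m22*(8)) ≤ η)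
    (h8 : (-2)*(a0 + m00*(0) + m01*(14) + m02*(10)) + (2)*(a1 + m10*(0) + m11*(14) + m12*(10)) + (-1)*(a2 + m20*(0) + m21*(14) + m22*(10)) ≤ η)
    (h9 : (-1)*(a0 + m00*(-10) + m01*(6) + m02*(17)) + (-2)*(a1 + m10*(-10) + m11*(6) + m12*(17)) + (-2)*(a2 + m20*(-10) + m21*(6) + m22*(17)) ≤ η)
    (h10 : (-1)*(a0 + m00*(-6) + m01*(5) + m02*(16)) + (-2)*(a1 + m10*(-6) + m11*(5) + m12*(16)) + (-2)*(a2 + m20*(-6) + m21*(5) + m22*(16)) ≤ η)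
    (h11 : (-1)*(a0 + m00*(-8) + m01*(4) + m02*(18)) + (-2)*(a1 + m10*(-8) + m11*(4) + m12*(18)) + (-2)*(a2 + m20*(-8) + m21*(4) + m22*(18)) ≤ η)
    (s00 : |m00 + m00| ≤ η) (s01 : |m01 + m10| ≤ η) (s02 : |m02 + m20| ≤ η) (s11 : |m11 + m11| ≤ η) (s12 : |m12 + m21| ≤ η) (s22 : |m22 + m22| ≤ η) :
    |a0| ≤ 1000*η ∧ |a1| ≤ 1000*η ∧ |a2| ≤ 1000*η ∧ |m00| ≤ 1000*η ∧ |m01| ≤ 1000*η ∧ |m02| ≤ 1000*η ∧ |m10| ≤ 1000*η ∧ |m11| ≤ 1000*η ∧ |m12| ≤ 1000*η ∧ |m20| ≤ 1000*η ∧ |m21| ≤ 1000*η ∧ |m22| ≤ 1000*η := by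
  rw [abs_le] at s00 s01 s02 s11 s12 s22
  obtain ⟨s00a, s00b⟩ := s00
  obtain ⟨s01a, s01b⟩ := s01
  obtain ⟨s02a, s02b⟩ := s02
  obtain ⟨s11a, s11b⟩ := s11
  obtain ⟨s12a, s12b⟩ := s12
  obtain ⟨s22a, s22b⟩ := s22
  refine ⟨?_, ?_, ?_, ?_, ?_, ?_, ?_, ?_, ?_, ?_, ?_, ?_⟩ <;> rw [abs_le] <;> constructor <;> linarith

/-- quadratic error estimate for one contact -/
theorem quad_bound (a0 a1 a2 m00 m01 m02 m10 m11 m12 m20 m21 m22 v0 v1 v2 w0 w1 w2 ε : ℝ)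
    (hε : 0 ≤ ε) (hv0 : |v0| ≤ 18) (hv1 : |v1| ≤ 18) (hv2 : |v2| ≤ 18)
    (ha0 : |a0| ≤ ε) (ha1 : |a1| ≤ ε) (ha2 : |a2| ≤ ε)
    (hm00 : |m00| ≤ ε) (hm01 : |m01| ≤ ε) (hm02 : |m02| ≤ ε)
    (hm10 : |m10| ≤ ε) (hm11 : |m11| ≤ ε) (hm12 : |m12| ≤ ε)
    (hm20 : |m20| ≤ ε) (hm21 : |m21| ≤ ε) (hm22 : |m22| ≤ ε)
    (h : 36 ≤ (a0 + m00 * v0 + m01 * v1 + m02 * v2 - 2 * w0) ^ 2 +
      (a1 + m10 * v0 + m11 * v1 + m12 * v2 - 2 * w1) ^ 2 +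
      (a2 + m20 * v0 + m21 * v1 + m22 * v2 - 2 * w2) ^ 2)
    (hw : w0 ^ 2 + w1 ^ 2 + w2 ^ 2 = 9) :
    w0 * (a0 + m00 * v0 + m01 * v1 + m02 * v2) + w1 * (a1 + m10 * v0 + m11 * v1 + m12 * v2) +
      w2 * (a2 + m20 * v0 + m21 * v1 + m22 * v2) ≤ 2500 * ε ^ 2 := by
  have bd : ∀ a p q r : ℝ, |a| ≤ ε → |p| ≤ ε → |q| ≤ ε → |r| ≤ ε →
      (a + p * v0 + q * v1 + r * v2) ^ 2 ≤ 3025 * ε ^ 2 := by
    intro a p q r ha hp hq hr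
    have h1 : |p * v0| ≤ ε * 18 := by rw [abs_mul]; exact mul_le_mul hp hv0 (abs_nonneg _) hε
    have h2 : |q * v1| ≤ ε * 18 := by rw [abs_mul]; exact mul_le_mul hq hv1 (abs_nonneg _) hε
    have h3 : |r * v2| ≤ ε * 18 := by rw [abs_mul]; exact mul_le_mul hr hv2 (abs_nonneg _) hε
    have h4 : |a + p * v0 + q * v1 + r * v2| ≤ 55 * ε := by
      rw [abs_le] at ha h1 h2 h3 ⊢
      constructor <;> linarith [ha.1, ha.2, h1.1, h1.2, h2.1, h2.2, h3.1, h3.2]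
    have h5 : |a + p * v0 + q * v1 + r * v2| ^ 2 ≤ (55 * ε) ^ 2 :=
      pow_le_pow_left₀ (abs_nonneg _) h4 2
    rw [sq_abs] at h5
    nlinarith
  have b0 := bd a0 m00 m01 m02 ha0 hm00 hm01 hm02
  have b1 := bd a1 m10 m11 m12 ha1 hm10 hm11 hm12
  have b2 := bd a2 m20 m21 m22 ha2 hm20 hm21 hm22
  nlinarith [sq_nonneg ε]

theorem sym_bound (p q x0 x1 x2 y0 y1 y2 ε : ℝ) (hε : 0 ≤ ε)
    (hx0 : |x0| ≤ ε) (hx1 : |x1| ≤ ε) (hx2 : |x2| ≤ ε)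
    (hy0 : |y0| ≤ ε) (hy1 : |y1| ≤ ε) (hy2 : |y2| ≤ ε)
    (h : p + q + (x0 * y0 + x1 * y1 + x2 * y2) = 0) : |p + q| ≤ 2500 * ε ^ 2 := by
  have h1 : |x0 * y0| ≤ ε * ε := by rw [abs_mul]; exact mul_le_mul hx0 hy0 (abs_nonneg _) hε
  have h2 : |x1 * y1| ≤ ε * ε := by rw [abs_mul]; exact mul_le_mul hx1 hy1 (abs_nonneg _) hε
  have h3 : |x2 * y2| ≤ ε * ε := by rw [abs_mul]; exact mul_le_mul hx2 hy2 (abs_nonneg _) hε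
  rw [abs_le] at *
  have : p + q = - (x0 * y0 + x1 * y1 + x2 * y2) := by linarith
  rw [this]
  constructor <;> nlinarith [h1.1, h1.2, h2.1, h2.2, h3.1, h3.2, sq_nonneg ε]

theorem numeric (a0 a1 a2 m00 m01 m02 m10 m11 m12 m20 m21 m22 ε : ℝ) (hε : 0 ≤ ε)
    (b_a0 : |a0| ≤ ε) (b_a1 : |a1| ≤ ε) (b_a2 : |a2| ≤ ε) (b_m00 : |m00| ≤ ε) (b_m01 : |m01| ≤ ε) (b_m02 : |m02| ≤ ε) (b_m10 : |m10| ≤ ε) (b_m11 : |m11| ≤ ε) (b_m12 : |m12| ≤ ε) (b_m20 : |m20| ≤ ε) (b_m21 : |m21| ≤ ε) (b_m22 : |m22| ≤ ε)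
    (o00 : m00 + m00 + (m00 * m00 + m10 * m10 + m20 * m20) = 0)
    (o01 : m01 + m10 + (m00 * m01 + m10 * m11 + m20 * m21) = 0)
    (o02 : m02 + m20 + (m00 * m02 + m10 * m12 + m20 * m22) = 0)
    (o11 : m11 + m11 + (m01 * m01 + m11 * m11 + m21 * m21) = 0)
    (o12 : m12 + m21 + (m01 * m02 + m11 * m12 + m21 * m22) = 0)
    (o22 : m22 + m22 + (m02 * m02 + m12 * m12 + m22 * m22) = 0)
    (c0 : 36 ≤ (a0 + m00 * (2) + m01 * (12) + m02 * (13) - 2 * (2)) ^ 2 + (a1 + m10 * (2) + m11 * (12) + m12 * (13) - 2 * (-1)) ^ 2 + (a2 + m20 * (2) + m21 * (12) + m22 * (13) - 2 * (2)) ^ 2)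
    (c1 : 36 ≤ (a0 + m00 * (1) + m01 * (8) + m02 * (12) - 2 * (2)) ^ 2 + (a1 + m10 * (1) + m11 * (8) + m12 * (12) - 2 * (-1)) ^ 2 + (a2 + m20 * (1) + m21 * (8) + m22 * (12) - 2 * (2)) ^ 2)
    (c2 : 36 ≤ (a0 + m00 * (0) + m01 * (10) + m02 * (14) - 2 * (2)) ^ 2 + (a1 + m10 * (0) + m11 * (10) + m12 * (14) - 2 * (-1)) ^ 2 + (a2 + m20 * (0) + m21 * (10) + m22 * (14) - 2 * (2)) ^ 2)
    (c3 : 36 ≤ (a0 + m00 * (10) + m01 * (17) + m02 * (6) - 2 * (1)) ^ 2 + (a1 + m10 * (10) + m11 * (17) + m12 * (6) - 2 * (-2)) ^ 2 + (a2 + m20 * (10) + m21 * (17) + m22 * (6) - 2 * (-2)) ^ 2)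
    (c4 : 36 ≤ (a0 + m00 * (6) + m01 * (16) + m02 * (5) - 2 * (1)) ^ 2 + (a1 + m10 * (6) + m11 * (16) + m12 * (5) - 2 * (-2)) ^ 2 + (a2 + m20 * (6) + m21 * (16) + m22 * (5) - 2 * (-2)) ^ 2)
    (c5 : 36 ≤ (a0 + m00 * (8) + m01 * (18) + m02 * (4) - 2 * (1)) ^ 2 + (a1 + m10 * (8) + m11 * (18) + m12 * (4) - 2 * (-2)) ^ 2 + (a2 + m20 * (8) + m21 * (18) + m22 * (4) - 2 * (-2)) ^ 2)
    (c6 : 36 ≤ (a0 + m00 * (-2) + m01 * (13) + m02 * (12) - 2 * (-2)) ^ 2 + (a1 + m10 * (-2) + m11 * (13) + m12 * (12) - 2 * (2)) ^ 2 + (a2 + m20 * (-2) + m21 * (13) + m22 * (12) - 2 * (-1)) ^ 2)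
    (c7 : 36 ≤ (a0 + m00 * (-1) + m01 * (12) + m02 * (8) - 2 * (-2)) ^ 2 + (a1 + m10 * (-1) + m11 * (12) + m12 * (8) - 2 * (2)) ^ 2 + (a2 + m20 * (-1) + m21 * (12) + m22 * (8) - 2 * (-1)) ^ 2)
    (c8 : 36 ≤ (a0 + m00 * (0) + m01 * (14) + m02 * (10) - 2 * (-2)) ^ 2 + (a1 + m10 * (0) + m11 * (14) + m12 * (10) - 2 * (2)) ^ 2 + (a2 + m20 * (0) + m21 * (14) + m22 * (10) - 2 * (-1)) ^ 2)
    (c9 : 36 ≤ (a0 + m00 * (-10) + m01 * (6) + m02 * (17) - 2 * (-1)) ^ 2 + (a1 + m10 * (-10) + m11 * (6) + m12 * (17) - 2 * (-2)) ^ 2 + (a2 + m20 * (-10) + m21 * (6) + m22 * (17) - 2 * (-2)) ^ 2)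
    (c10 : 36 ≤ (a0 + m00 * (-6) + m01 * (5) + m02 * (16) - 2 * (-1)) ^ 2 + (a1 + m10 * (-6) + m11 * (5) + m12 * (16) - 2 * (-2)) ^ 2 + (a2 + m20 * (-6) + m21 * (5) + m22 * (16) - 2 * (-2)) ^ 2)
    (c11 : 36 ≤ (a0 + m00 * (-8) + m01 * (4) + m02 * (18) - 2 * (-1)) ^ 2 + (a1 + m10 * (-8) + m11 * (4) + m12 * (18) - 2 * (-2)) ^ 2 + (a2 + m20 * (-8) + m21 * (4) + m22 * (18) - 2 * (-2)) ^ 2) :
    |a0| ≤ 2500000 * ε ^ 2 ∧ |a1| ≤ 2500000 * ε ^ 2 ∧ |a2| ≤ 2500000 * ε ^ 2 ∧ |m00| ≤ 2500000 * ε ^ 2 ∧ |m01| ≤ 2500000 * ε ^ 2 ∧ |m02| ≤ 2500000 * ε ^ 2 ∧ |m10| ≤ 2500000 * ε ^ 2 ∧ |m11| ≤ 2500000 * ε ^ 2 ∧ |m12| ≤ 2500000 * ε ^ 2 ∧ |m20| ≤ 2500000 * ε ^ 2 ∧ |m21| ≤ 2500000 * ε ^ 2 ∧ |m22| ≤ 2500000 * ε ^ 2 := by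
  have h0 := quad_bound a0 a1 a2 m00 m01 m02 m10 m11 m12 m20 m21 m22 (2) (12) (13) (2) (-1) (2) ε hε (by norm_num) (by norm_num) (by norm_num)
    b_a0 b_a1 b_a2 b_m00 b_m01 b_m02 b_m10 b_m11 b_m12 b_m20 b_m21 b_m22 c0 (by norm_num)
  have h1 := quad_bound a0 a1 a2 m00 m01 m02 m10 m11 m12 m20 m21 m22 (1) (8) (12) (2) (-1) (2) ε hε (by norm_num) (by norm_num) (by norm_num)
    b_a0 b_a1 b_a2 b_m00 b_m01 b_m02 b_m10 b_m11 b_m12 b_m20 b_m21 b_m22 c1 (by norm_num)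
  have h2 := quad_bound a0 a1 a2 m00 m01 m02 m10 m11 m12 m20 m21 m22 (0) (10) (14) (2) (-1) (2) ε hε (by norm_num) (by norm_num) (by norm_num)
    b_a0 b_a1 b_a2 b_m00 b_m01 b_m02 b_m10 b_m11 b_m12 b_m20 b_m21 b_m22 c2 (by norm_num)
  have h3 := quad_bound a0 a1 a2 m00 m01 m02 m10 m11 m12 m20 m21 m22 (10) (17) (6) (1) (-2) (-2) ε hε (by norm_num) (by norm_num) (by norm_num)
    b_a0 b_a1 b_a2 b_m00 b_m01 b_m02 b_m10 b_m11 b_m12 b_m20 b_m21 b_m22 c3 (by norm_num)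
  have h4 := quad_bound a0 a1 a2 m00 m01 m02 m10 m11 m12 m20 m21 m22 (6) (16) (5) (1) (-2) (-2) ε hε (by norm_num) (by norm_num) (by norm_num)
    b_a0 b_a1 b_a2 b_m00 b_m01 b_m02 b_m10 b_m11 b_m12 b_m20 b_m21 b_m22 c4 (by norm_num)
  have h5 := quad_bound a0 a1 a2 m00 m01 m02 m10 m11 m12 m20 m21 m22 (8) (18) (4) (1) (-2) (-2) ε hε (by norm_num) (by norm_num) (by norm_num)
    b_a0 b_a1 b_a2 b_m00 b_m01 b_m02 b_m10 b_m11 b_m12 b_m20 b_m21 b_m22 c5 (by norm_num)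
  have h6 := quad_bound a0 a1 a2 m00 m01 m02 m10 m11 m12 m20 m21 m22 (-2) (13) (12) (-2) (2) (-1) ε hε (by norm_num) (by norm_num) (by norm_num)
    b_a0 b_a1 b_a2 b_m00 b_m01 b_m02 b_m10 b_m11 b_m12 b_m20 b_m21 b_m22 c6 (by norm_num)
  have h7 := quad_bound a0 a1 a2 m00 m01 m02 m10 m11 m12 m20 m21 m22 (-1) (12) (8) (-2) (2) (-1) ε hε (by norm_num) (by norm_num) (by norm_num)
    b_a0 b_a1 b_a2 b_m00 b_m01 b_m02 b_m10 b_m11 b_m12 b_m20 b_m21 b_m22 c7 (by norm_num)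
  have h8 := quad_bound a0 a1 a2 m00 m01 m02 m10 m11 m12 m20 m21 m22 (0) (14) (10) (-2) (2) (-1) ε hε (by norm_num) (by norm_num) (by norm_num)
    b_a0 b_a1 b_a2 b_m00 b_m01 b_m02 b_m10 b_m11 b_m12 b_m20 b_m21 b_m22 c8 (by norm_num)
  have h9 := quad_bound a0 a1 a2 m00 m01 m02 m10 m11 m12 m20 m21 m22 (-10) (6) (17) (-1) (-2) (-2) ε hε (by norm_num) (by norm_num) (by norm_num)
    b_a0 b_a1 b_a2 b_m00 b_m01 b_m02 b_m10 b_m11 b_m12 b_m20 b_m21 b_m22 c9 (by norm_num)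
  have h10 := quad_bound a0 a1 a2 m00 m01 m02 m10 m11 m12 m20 m21 m22 (-6) (5) (16) (-1) (-2) (-2) ε hε (by norm_num) (by norm_num) (by norm_num)
    b_a0 b_a1 b_a2 b_m00 b_m01 b_m02 b_m10 b_m11 b_m12 b_m20 b_m21 b_m22 c10 (by norm_num)
  have h11 := quad_bound a0 a1 a2 m00 m01 m02 m10 m11 m12 m20 m21 m22 (-8) (4) (18) (-1) (-2) (-2) ε hε (by norm_num) (by norm_num) (by norm_num)
    b_a0 b_a1 b_a2 b_m00 b_m01 b_m02 b_m10 b_m11 b_m12 b_m20 b_m21 b_m22 c11 (by norm_num)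
  have s00 := sym_bound m00 m00 m00 m10 m20 m00 m10 m20 ε hε b_m00 b_m10 b_m20 b_m00 b_m10 b_m20 o00
  have s01 := sym_bound m01 m10 m00 m10 m20 m01 m11 m21 ε hε b_m00 b_m10 b_m20 b_m01 b_m11 b_m21 o01
  have s02 := sym_bound m02 m20 m00 m10 m20 m02 m12 m22 ε hε b_m00 b_m10 b_m20 b_m02 b_m12 b_m22 o02
  have s11 := sym_bound m11 m11 m01 m11 m21 m01 m11 m21 ε hε b_m01 b_m11 b_m21 b_m01 b_m11 b_m21 o11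
  have s12 := sym_bound m12 m21 m01 m11 m21 m02 m12 m22 ε hε b_m01 b_m11 b_m21 b_m02 b_m12 b_m22 o12
  have s22 := sym_bound m22 m22 m02 m12 m22 m02 m12 m22 ε hε b_m02 b_m12 b_m22 b_m02 b_m12 b_m22 o22
  have := lin a0 a1 a2 m00 m01 m02 m10 m11 m12 m20 m21 m22 (2500 * ε ^ 2) h0 h1 h2 h3 h4 h5 h6 h7 h8 h9 h10 h11 s00 s01 s02 s11 s12 s22
  obtain ⟨g0, g1, g2, g3, g4, g5, g6, g7, g8, g9, g10, g11⟩ := this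
  refine ⟨?_, ?_, ?_, ?_, ?_, ?_, ?_, ?_, ?_, ?_, ?_, ?_⟩ <;> linarith

end Pool.Agent.MP_2d2dfa_co
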