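import Mathlib

set_option autoImplicit false
open Set

namespace Pool.Agent.MP_2d2dfa_co

abbrev E := EuclideanSpace ℝ (Fin 3)

/-- Closed thickenings of nonempty compact sets have a unique outer normal at boundary points. -/
theorem smooth_cthickening {P : Set E} (hP : IsCompact P) {r : ℝ} (hr : 0 < r)
    {x : E} (hx : x ∈ frontier (Metric.cthickening r P)) {u v : E} (hu : u ≠ 0) (hv : v ≠ 0)
    (h1 : ∀ y ∈ Metric.cthickening r P, inner ℝ u (y - x) ≤ 0)
    (h2 : ∀ y ∈ Metric.cthickening r P, inner ℝ v (y - x) ≤ 0) :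
    ∃ c : ℝ, 0 < c ∧ v = c • u := by
  have hcl : IsClosed (Metric.cthickening r P) := Metric.isClosed_cthickening
  have hxK : x ∈ Metric.cthickening r P := hcl.frontier_subset hx
  rw [hP.cthickening_eq_biUnion_closedBall hr.le] at hxK
  simp only [mem_iUnion, exists_prop] at hxK
  obtain ⟨p, hp, hxp⟩ := hxK
  have hsub : Metric.closedBall p r ⊆ Metric.cthickening r P := by
    rw [hP.cthickening_eq_biUnion_closedBall hr.le]
    exact subset_biUnion_of_mem (u := fun p => Metric.closedBall p r) hp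
  have hdist : dist x p = r := by
    apply le_antisymm hxp
    by_contra hlt
    push Not at hlt
    have : x ∈ interior (Metric.cthickening r P) := by
      apply interior_mono hsub
      exact Metric.ball_subset_interior_closedBall hlt
    exact hx.2 this
  have key : ∀ w : E, w ≠ 0 → (∀ y ∈ Metric.cthickening r P, inner ℝ w (y - x) ≤ 0) →
      x - p = (r / ‖w‖) • w := by
    intro w hw h
    have hwn : 0 < ‖w‖ := norm_pos_iff.mpr hw
    have hy : p + (r / ‖w‖) • w ∈ Metric.cthickening r P := by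
      apply hsub
      rw [Metric.mem_closedBall, dist_eq_norm, add_sub_cancel_left, norm_smul, norm_div,
        Real.norm_of_nonneg hr.le, norm_norm]
      field_simp
      exact le_rfl
    have h' := h _ hy
    have e1 : inner ℝ w (p + (r / ‖w‖) • w - x) = r * ‖w‖ - inner ℝ w (x - p) := by
      have : p + (r / ‖w‖) • w - x = (r / ‖w‖) • w - (x - p) := by abel
      rw [this, inner_sub_right, inner_smul_right, real_inner_self_eq_norm_sq]
      field_simp
    rw [e1] at h'
    have hnorm : ‖x - p‖ = r := by rw [← dist_eq_norm]; exact hdist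
    have hle : inner ℝ w (x - p) ≤ ‖w‖ * ‖x - p‖ := real_inner_le_norm _ _
    have heq : inner ℝ w (x - p) = ‖w‖ * ‖x - p‖ := by
      rw [hnorm] at hle ⊢
      linarith
    have h3 := (inner_eq_norm_mul_iff_real (x := w) (y := x - p)).mp heq
    rw [hnorm] at h3
    -- ‖x-p‖ • w = ‖w‖ • (x-p)
    have : (1 / ‖w‖) • (‖w‖ • (x - p)) = x - p := by
      rw [smul_smul]; field_simp; simp
    rw [← this, ← h3, smul_smul]
    congr 1
    field_simp
  have hu' := key u hu h1
  have hv' := key v hv h2
  have hun : 0 < ‖u‖ := norm_pos_iff.mpr hu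
  have hvn : 0 < ‖v‖ := norm_pos_iff.mpr hv
  refine ⟨‖v‖ / ‖u‖, by positivity, ?_⟩
  have : (‖v‖ / r) • ((r / ‖v‖) • v) = v := by
    rw [smul_smul]
    have : ‖v‖ / r * (r / ‖v‖) = 1 := by field_simp
    rw [this, one_smul]
  calc v = (‖v‖ / r) • ((r / ‖v‖) • v) := this.symm
    _ = (‖v‖ / r) • ((r / ‖u‖) • u) := by rw [← hv', hu']
    _ = (‖v‖ / ‖u‖) • u := by
      rw [smul_smul]
      congr 1
      field_simp

/-- Separation of thickenings. -/
theorem disjoint_cthickening {P Q : Set E} (hP : IsCompact P) (hQ : IsCompact Q) {r : ℝ}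
    (hr : 0 ≤ r) {n : E} (hn : n ≠ 0)
    (h : ∀ p ∈ P, ∀ q ∈ Q, inner ℝ n p + 2 * r * ‖n‖ ≤ inner ℝ n q) :
    Disjoint (interior (Metric.cthickening r P)) (interior (Metric.cthickening r Q)) := by
  rw [Set.disjoint_left]
  intro y hy1 hy2
  have hnn : 0 < ‖n‖ := norm_pos_iff.mpr hn
  -- move slightly
  have hopen : IsOpen (interior (Metric.cthickening r P)) := isOpen_interior
  obtain ⟨ε, hε, hball⟩ := Metric.isOpen_iff.mp hopen y hy1
  set z : E := y + (ε / (2 * ‖n‖)) • n with hz
  have hzmem : z ∈ Metric.cthickening r P := by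
    apply interior_subset
    apply hball
    rw [Metric.mem_ball, dist_eq_norm, hz, add_sub_cancel_left, norm_smul, norm_div,
      Real.norm_of_nonneg hε.le, norm_mul, norm_norm]
    simp only [Real.norm_ofNat]
    have : ε / (2 * ‖n‖) * ‖n‖ = ε / 2 := by field_simp
    rw [this]
    linarith
  have hymem : y ∈ Metric.cthickening r Q := interior_subset hy2
  rw [hP.cthickening_eq_biUnion_closedBall hr] at hzmem
  rw [hQ.cthickening_eq_biUnion_closedBall hr] at hymem
  simp only [mem_iUnion, exists_prop] at hzmem hymem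
  obtain ⟨p, hp, hzp⟩ := hzmem
  obtain ⟨q, hq, hyq⟩ := hymem
  have h0 := h p hp q hq
  have h1 : inner ℝ n (z - p) ≤ ‖n‖ * r := by
    calc inner ℝ n (z - p) ≤ ‖n‖ * ‖z - p‖ := real_inner_le_norm _ _
      _ ≤ ‖n‖ * r := by
        apply mul_le_mul_of_nonneg_left _ hnn.le
        rw [← dist_eq_norm]; exact hzp
  have h2 : inner ℝ n (q - y) ≤ ‖n‖ * r := by
    calc inner ℝ n (q - y) ≤ ‖n‖ * ‖q - y‖ := real_inner_le_norm _ _
      _ ≤ ‖n‖ * r := by
        apply mul_le_mul_of_nonneg_left _ hnn.le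
        rw [← dist_eq_norm, dist_comm]; exact hyq
  have h3 : inner ℝ n z = inner ℝ n y + ε / 2 * ‖n‖ := by
    rw [hz, inner_add_right, inner_smul_right, real_inner_self_eq_norm_sq]
    field_simp
  rw [inner_sub_right] at h1 h2
  have : 0 < ε / 2 * ‖n‖ := by positivity
  nlinarith

end Pool.Agent.MP_2d2dfa_co
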